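import Pool.Agent.Helper88.SlabNumeric

/-!
One-variable bounds of `sinc` (module F2b, F2c of project FA, MP_66ebcc_gt).
-/

set_option autoImplicit false

open Set Real

namespace Pool.Agent.Helper89.FA

namespace F2bc

open Pool.Agent.Helper88.Slab

lemma exp_neg_lower {x v : ℝ} (hx : 0 ≤ x) (hv : 0 ≤ v)
    (h : v ≤ 1 - x/4 + (x/4)^2/2 - (x/4)^3/6 + (x/4)^4/24 - (x/4)^5/120 + (x/4)^6/720 - (x/4)^7/5040) :
    v ^ 4 ≤ Real.exp (-x) := by
  have h1 := exp_neg_ge7 (x/4) (by positivity)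
  have h2 : v ≤ Real.exp (-(x/4)) := h.trans h1
  have h3 : Real.exp (-x) = Real.exp (-(x/4)) ^ 4 := by
    rw [← Real.exp_nat_mul]
    congr 1
    push_cast
    ring
  rw [h3]
  exact pow_le_pow_left₀ hv h2 4

lemma h_anti {c z z1 : ℝ} (hz : 0 < z) (hz1 : z ≤ z1) (hc : 1 ≤ c * z * (z + z1)) :
    z1 * Real.exp (-(c * z1 ^ 2)) ≤ z * Real.exp (-(c * z ^ 2)) := by
  have h1 : z1 / z ≤ Real.exp (z1 / z - 1) := by
    have := Real.add_one_le_exp (z1 / z - 1)
    linarith
  have h2 : z1 / z - 1 ≤ c * z1 ^ 2 - c * z ^ 2 := by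
    rw [div_sub_one hz.ne', div_le_iff₀ hz]
    have : (z1 - z) * 1 ≤ (z1 - z) * (c * z * (z + z1)) :=
      mul_le_mul_of_nonneg_left hc (by linarith)
    nlinarith
  have h3 : z1 / z ≤ Real.exp (c * z1 ^ 2 - c * z ^ 2) := h1.trans (Real.exp_le_exp.mpr h2)
  rw [div_le_iff₀ hz] at h3
  have h4 : Real.exp (-(c * z ^ 2)) = Real.exp (c * z1 ^ 2 - c * z ^ 2) * Real.exp (-(c * z1 ^ 2)) := by
    rw [← Real.exp_add]; congr 1; ring
  rw [h4]
  have h5 := Real.exp_pos (-(c * z1 ^ 2))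
  nlinarith

/-- One piece `[z0, z1]`. -/
lemma piece {c z0 z1 s z : ℝ} (h0 : 0 < z0) (hz : z0 ≤ z) (hz1 : z ≤ z1) (hc0 : 0 ≤ c)
    (hc : 1 ≤ c * z0 * (z0 + z1))
    (hs : |Real.sin z| ≤ s) (hh : s ≤ z1 * Real.exp (-(c * z1 ^ 2))) :
    |sinc z| ≤ Real.exp (-(c * z ^ 2)) := by
  have hz0 : 0 < z := by linarith
  rw [sinc_of_ne_zero hz0.ne', abs_div, abs_of_pos hz0, div_le_iff₀ hz0]
  have hc' : 1 ≤ c * z * (z + z1) := by
    refine hc.trans ?_
    have h1 : c * z0 ≤ c * z := mul_le_mul_of_nonneg_left hz hc0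
    exact mul_le_mul h1 (by linarith) (by linarith) (mul_nonneg hc0 hz0.le)
  have := h_anti hz0 hz1 hc'
  linarith

lemma small_case {c z : ℝ} (hc : c ≤ 1 / 6) (hz : |z| ≤ π) : |sinc z| ≤ Real.exp (-(c * z ^ 2)) := by
  rw [abs_of_nonneg (sinc_nonneg hz)]
  refine (sinc_le hz).trans (Real.exp_le_exp.mpr ?_)
  have : c * z ^ 2 ≤ 1 / 6 * z ^ 2 := mul_le_mul_of_nonneg_right hc (sq_nonneg z)
  linarith

lemma reduce {c Z : ℝ} (hc : c ≤ 1 / 6)
    (h : ∀ z : ℝ, π ≤ z → z ≤ Z → |sinc z| ≤ Real.exp (-(c * z ^ 2))) {z : ℝ} (hz : |z| ≤ Z) :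
    |sinc z| ≤ Real.exp (-(c * z ^ 2)) := by
  rcases le_total |z| π with h1 | h1
  · exact small_case hc h1
  · have h2 := h |z| h1 hz
    rw [sq_abs] at h2
    rcases abs_choice z with h3 | h3
    · rwa [h3] at h2
    · rw [h3, sinc_neg] at h2
      exact h2

/-- `|sin z|` for `π ≤ z ≤ 3π/2`, upper end `z1`. -/
lemma sin_after_pi {z v : ℝ} (hz : π ≤ z) (hv : z - π ≤ v) (hv2 : v ≤ π / 2) :
    |Real.sin z| ≤ v - v^3/6 + v^5/120 := by
  have h1 : Real.sin z = - Real.sin (z - π) := by rw [Real.sin_sub_pi, neg_neg]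
  have h2 : 0 ≤ Real.sin (z - π) :=
    Real.sin_nonneg_of_nonneg_of_le_pi (by linarith) (by linarith [Real.pi_pos])
  rw [h1, abs_neg, abs_of_nonneg h2]
  have h3 : Real.sin (z - π) ≤ Real.sin v :=
    Real.sin_le_sin_of_le_of_le_pi_div_two (by linarith [Real.pi_pos]) hv2 hv
  exact h3.trans (sin_le5 (by linarith))

/-- `|sin z|` for `3π/2 ≤ z`. -/
lemma sin_after_three {z s : ℝ} (hs : 0 ≤ s) (hz : s ≤ z - 3 * π / 2) (hz2 : z ≤ 2 * π) :
    |Real.sin z| ≤ 1 - s^2/2 + s^4/24 := by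
  have h1 : Real.sin z = - Real.cos (z - 3 * π / 2) := by
    have e : z - 3 * π / 2 = (z - π) - π / 2 := by ring
    rw [e, Real.cos_sub_pi_div_two, Real.sin_sub_pi, neg_neg]
  have h2 : 0 ≤ Real.cos (z - 3 * π / 2) :=
    Real.cos_nonneg_of_neg_pi_div_two_le_of_le (by linarith [Real.pi_pos]) (by linarith)
  rw [h1, abs_neg, abs_of_nonneg h2]
  have h3 : Real.cos (z - 3 * π / 2) ≤ Real.cos s :=
    Real.cos_le_cos_of_nonneg_of_le_pi hs (by linarith [Real.pi_pos]) hz
  exact h3.trans (cos_le4 hs)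

end F2bc

open F2bc Pool.Agent.Helper88.Slab

/-- F2b. -/
theorem sinc_ge_a {y : ℝ} (hy : |y| ≤ 1.048) : exp (-(y ^ 2 / 6 + 0.006 * y ^ 4)) ≤ sinc y := by
  wlog h : 0 ≤ y generalizing y
  · have := this (y := -y) (by rwa [abs_neg]) (by linarith)
    rw [sinc_neg] at this
    convert this using 2
    ring
  rcases h.eq_or_lt with rfl | hpos
  · simp
  rw [abs_of_pos hpos] at hy
  rw [sinc_of_ne_zero hpos.ne', le_div_iff₀ hpos]
  have h1 := exp_neg_le (y^2/6 + 0.006*y^4) (by positivity)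
  have h2 := sin_ge7 h
  have h4 : (1 - (y^2/6 + 0.006*y^4) + (y^2/6 + 0.006*y^4)^2/2 - (y^2/6 + 0.006*y^4)^3/6
      + (y^2/6 + 0.006*y^4)^4/24) ≤ 1 - y^2/6 + y^4/120 - y^6/5040 := by
    obtain ⟨w, hw⟩ : ∃ w, w = y^2 := ⟨_, rfl⟩
    have e1 : y^4 = w^2 := by rw [hw]; ring
    have e2 : y^6 = w^3 := by rw [hw]; ring
    rw [e1, e2, ← hw]
    have h0 : 0 ≤ w := by rw [hw]; positivity
    have h1 : w ≤ 1.098304 := by rw [hw]; nlinarith
    have hD : (1 - w/6 + w^2/120 - w^3/5040) - (1 - (w/6 + 0.006*w^2) + (w/6 + 0.006*w^2)^2/2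
        - (w/6 + 0.006*w^2)^3/6 + (w/6 + 0.006*w^2)^4/24) =
        w^2 * (1/2250 - 121/283500 * w + w^2 * (16127/486000000 - 11/6750000 * w
          - 107/500000000 * w^2 - 3/500000000 * w^3 - 27/500000000000 * w^4)) := by ring
    have p2 : w^2 ≤ 1.1^2 := by gcongr; linarith
    have p3 : w^3 ≤ 1.1^3 := by gcongr; linarith
    have p4 : w^4 ≤ 1.1^4 := by gcongr; linarith
    have h5 : 3.1e-5 ≤ (16127/486000000 - 11/6750000 * w
          - 107/500000000 * w^2 - 3/500000000 * w^3 - 27/500000000000 * w^4 : ℝ) := by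
      norm_num at *
      linarith
    have h6 : w^2 * 3.1e-5 ≤ w^2 * (16127/486000000 - 11/6750000 * w
          - 107/500000000 * w^2 - 3/500000000 * w^3 - 27/500000000000 * w^4 : ℝ) :=
      mul_le_mul_of_nonneg_left h5 (sq_nonneg w)
    have h7 : 0 ≤ 1/2250 - 121/283500 * w + w^2 * 3.1e-5 := by
      nlinarith [mul_nonneg h0 (by linarith : 0 ≤ 1.098304 - w), sq_nonneg (w - 1.098304)]
    have h8 : 0 ≤ w^2 * (1/2250 - 121/283500 * w + w^2 * (16127/486000000 - 11/6750000 * w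
          - 107/500000000 * w^2 - 3/500000000 * w^3 - 27/500000000000 * w^4)) :=
      mul_nonneg (sq_nonneg w) (by linarith)
    linarith
  have h5 : Real.exp (-(y^2/6 + 0.006*y^4)) * y ≤ (1 - y^2/6 + y^4/120 - y^6/5040) * y :=
    mul_le_mul_of_nonneg_right (h1.trans h4) h
  refine h5.trans (le_trans (le_of_eq ?_) h2)
  ring

/-- F2b. -/
theorem sinc_ge_b {y : ℝ} (hy : |y| ≤ 1.21) : exp (-(y ^ 2 / 6 + 0.0062 * y ^ 4)) ≤ sinc y := by
  wlog h : 0 ≤ y generalizing y
  · have := this (y := -y) (by rwa [abs_neg]) (by linarith)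
    rw [sinc_neg] at this
    convert this using 2
    ring
  rcases h.eq_or_lt with rfl | hpos
  · simp
  rw [abs_of_pos hpos] at hy
  rw [sinc_of_ne_zero hpos.ne', le_div_iff₀ hpos]
  have h1 := exp_neg_le (y^2/6 + 0.0062*y^4) (by positivity)
  have h2 := sin_ge7 h
  have h4 : (1 - (y^2/6 + 0.0062*y^4) + (y^2/6 + 0.0062*y^4)^2/2 - (y^2/6 + 0.0062*y^4)^3/6
      + (y^2/6 + 0.0062*y^4)^4/24) ≤ 1 - y^2/6 + y^4/120 - y^6/5040 := by
    obtain ⟨w, hw⟩ : ∃ w, w = y^2 := ⟨_, rfl⟩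
    have e1 : y^4 = w^2 := by rw [hw]; ring
    have e2 : y^6 = w^3 := by rw [hw]; ring
    rw [e1, e2, ← hw]
    have h0 : 0 ≤ w := by rw [hw]; positivity
    have h1 : w ≤ 1.4641 := by rw [hw]; nlinarith
    have hD : (1 - w/6 + w^2/120 - w^3/5040) - (1 - (w/6 + 0.0062*w^2) + (w/6 + 0.0062*w^2)^2/2
        - (w/6 + 0.0062*w^2)^3/6 + (w/6 + 0.0062*w^2)^4/24) =
        w^2 * (29/45000 - 2609/5670000 * w + w^2 * (211051/6075000000 - 12803/8100000000 * w
          - 127813/562500000000 * w^2 - 29791/4500000000000 * w^3 -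
          923521/15000000000000000 * w^4)) := by ring
    have p2 : w^2 ≤ 1.47^2 := by gcongr; linarith
    have p3 : w^3 ≤ 1.47^3 := by gcongr; linarith
    have p4 : w^4 ≤ 1.47^4 := by gcongr; linarith
    have h5 : 3.1e-5 ≤ (211051/6075000000 - 12803/8100000000 * w
          - 127813/562500000000 * w^2 - 29791/4500000000000 * w^3 -
          923521/15000000000000000 * w^4 : ℝ) := by
      norm_num at *
      linarith
    have h6 : w^2 * 3.1e-5 ≤ w^2 * (211051/6075000000 - 12803/8100000000 * w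
          - 127813/562500000000 * w^2 - 29791/4500000000000 * w^3 -
          923521/15000000000000000 * w^4 : ℝ) :=
      mul_le_mul_of_nonneg_left h5 (sq_nonneg w)
    have h7 : 0 ≤ 29/45000 - 2609/5670000 * w + w^2 * 3.1e-5 := by
      nlinarith [mul_nonneg h0 (by linarith : 0 ≤ 1.4641 - w), sq_nonneg (w - 1.4641)]
    have h8 : 0 ≤ w^2 * (29/45000 - 2609/5670000 * w + w^2 * (211051/6075000000 - 12803/8100000000 * w
          - 127813/562500000000 * w^2 - 29791/4500000000000 * w^3 -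
          923521/15000000000000000 * w^4)) :=
      mul_nonneg (sq_nonneg w) (by linarith)
    linarith
  have h5 : Real.exp (-(y^2/6 + 0.0062*y^4)) * y ≤ (1 - y^2/6 + y^4/120 - y^6/5040) * y :=
    mul_le_mul_of_nonneg_right (h1.trans h4) h
  refine h5.trans (le_trans (le_of_eq ?_) h2)
  ring

/-- F2c. -/
theorem abs_sinc_357 {z : ℝ} (hz : |z| ≤ 3.57) : |sinc z| ≤ exp (-(z ^ 2 / 6)) := by
  have h := reduce (c := 1/6) (Z := 3.57) le_rfl ?_ hz
  · convert h using 3; ring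
  intro z h1 h2
  have hpi := Real.pi_gt_d6
  have hpi2 := Real.pi_lt_d6
  refine piece (z0 := 3.14) (z1 := 3.57) (s := 0.4156) (by norm_num) (by linarith) h2 (by norm_num)
    (by norm_num) ?_ ?_
  · refine (sin_after_pi (v := 0.42841) h1 (by linarith) (by linarith)).trans ?_
    norm_num
  · have := exp_neg_lower (x := 1/6*3.57^2) (v := 0.5875) (by norm_num) (by norm_num) (by norm_num)
    norm_num at this ⊢
    linarith

theorem abs_sinc_393 {z : ℝ} (hz : |z| ≤ 5 * π / 4) : |sinc z| ≤ exp (-(0.1105 * z ^ 2)) := by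
  refine reduce (c := 0.1105) (Z := 5 * π / 4) (by norm_num) ?_ hz
  intro z h1 h2
  have hpi := Real.pi_gt_d6
  have hpi2 := Real.pi_lt_d6
  refine piece (z0 := 3.14) (z1 := 3.927) (s := 0.7072) (by norm_num) (by linarith) (by linarith)
    (by norm_num) (by norm_num) ?_ ?_
  · refine (sin_after_pi (v := 0.7854) h1 (by linarith) (by linarith)).trans ?_
    norm_num
  · have := exp_neg_lower (x := 0.1105*3.927^2) (v := 0.653) (by norm_num) (by norm_num) (by norm_num)
    norm_num at this ⊢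
    linarith

theorem abs_sinc_435 {z : ℝ} (hz : |z| ≤ 4.346) : |sinc z| ≤ exp (-(0.08 * z ^ 2)) := by
  refine reduce (c := 0.08) (Z := 4.346) (by norm_num) ?_ hz
  intro z h1 h2
  have hpi := Real.pi_gt_d6
  have hpi2 := Real.pi_lt_d6
  refine piece (z0 := 3.14) (z1 := 4.346) (s := 0.935) (by norm_num) (by linarith) (by linarith)
    (by norm_num) (by norm_num) ?_ ?_
  · refine (sin_after_pi (v := 1.20441) h1 (by linarith) (by linarith)).trans ?_
    norm_num
  · have := exp_neg_lower (x := 0.08*4.346^2) (v := 0.685) (by norm_num) (by norm_num) (by norm_num)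
    norm_num at this ⊢
    linarith

theorem abs_sinc_550 {z : ℝ} (hz : |z| ≤ 7 * π / 4) : |sinc z| ≤ exp (-(0.064 * z ^ 2)) := by
  refine reduce (c := 0.064) (Z := 7 * π / 4) (by norm_num) ?_ hz
  intro z h1 h2
  have hpi := Real.pi_gt_d6
  have hpi2 := Real.pi_lt_d6
  rcases le_total z 5 with h3 | h3
  · refine piece (z0 := 3.14) (z1 := 5) (s := 1) (by norm_num) (by linarith) (by linarith)
      (by norm_num) (by norm_num) (Real.abs_sin_le_one z) ?_
    have := exp_neg_lower (x := 0.064*5^2) (v := 0.67) (by norm_num) (by norm_num) (by norm_num)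
    norm_num at this ⊢
    linarith
  have key : ∀ (z0 z1 s v : ℝ), 4.7125 ≤ z0 → z0 ≤ z → z ≤ z1 → 1 ≤ 0.064 * z0 * (z0 + z1) →
      1 - (z0 - 4.7124)^2/2 + (z0 - 4.7124)^4/24 ≤ s → s ≤ z1 * v ^ 4 → 0 ≤ v →
      v ≤ 1 - (0.064*z1^2)/4 + ((0.064*z1^2)/4)^2/2 - ((0.064*z1^2)/4)^3/6 + ((0.064*z1^2)/4)^4/24
        - ((0.064*z1^2)/4)^5/120 + ((0.064*z1^2)/4)^6/720 - ((0.064*z1^2)/4)^7/5040 →
      |sinc z| ≤ exp (-(0.064 * z ^ 2)) := by
    intro z0 z1 s v g0 g1 g2 g3 g4 g5 g6 g7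
    refine piece (z0 := z0) (z1 := z1) (s := s) (by linarith) g1 g2 (by norm_num) g3 ?_ ?_
    · exact (sin_after_three (s := z0 - 4.7124) (by linarith) (by linarith) (by linarith)).trans g4
    · have := exp_neg_lower (x := 0.064*z1^2) (by positivity) g6 g7
      have h5 : z1 * v ^ 4 ≤ z1 * Real.exp (-(0.064*z1^2)) :=
        mul_le_mul_of_nonneg_left this (by linarith)
      linarith
  rcases le_total z 5.1 with h4 | h4
  · exact key 5 5.1 0.96 0.659 (by norm_num) h3 h4 (by norm_num) (by norm_num) (by norm_num)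
      (by norm_num) (by norm_num)
  rcases le_total z 5.18 with h5 | h5
  · exact key 5.1 5.18 0.9265 0.6505 (by norm_num) h4 h5 (by norm_num) (by norm_num) (by norm_num)
      (by norm_num) (by norm_num)
  rcases le_total z 5.26 with h6 | h6
  · exact key 5.18 5.26 0.8934 0.6421 (by norm_num) h5 h6 (by norm_num) (by norm_num) (by norm_num)
      (by norm_num) (by norm_num)
  rcases le_total z 5.35 with h7 | h7
  · exact key 5.26 5.35 0.8543 0.6325 (by norm_num) h6 h7 (by norm_num) (by norm_num) (by norm_num)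
      (by norm_num) (by norm_num)
  rcases le_total z 5.47 with h8 | h8
  · exact key 5.35 5.47 0.804 0.6195 (by norm_num) h7 h8 (by norm_num) (by norm_num) (by norm_num)
      (by norm_num) (by norm_num)
  · exact key 5.47 5.498 0.75 0.6165 (by norm_num) h8 (by linarith) (by norm_num) (by norm_num)
      (by norm_num) (by norm_num) (by norm_num)

theorem abs_sinc_707 {z : ℝ} (hz : |z| ≤ 9 * π / 4) : |sinc z| ≤ exp (-(0.045 * z ^ 2)) := by
  refine reduce (c := 0.045) (Z := 9 * π / 4) (by norm_num) ?_ hz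
  intro z h1 h2
  have hpi := Real.pi_gt_d6
  have hpi2 := Real.pi_lt_d6
  rcases le_total z (2 * π) with h3 | h3
  · refine piece (z0 := 3.14) (z1 := 6.2832) (s := 1) (by norm_num) (by linarith) (by linarith)
      (by norm_num) (by norm_num) (Real.abs_sin_le_one z) ?_
    have := exp_neg_lower (x := 0.045*6.2832^2) (v := 0.64) (by norm_num) (by norm_num) (by norm_num)
    norm_num at this ⊢
    linarith
  · refine piece (z0 := 6.28) (z1 := 7.0686) (s := 0.7072) (by norm_num) (by linarith) (by linarith)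
      (by norm_num) (by norm_num) ?_ ?_
    · have e : Real.sin z = Real.sin (z - 2 * π) := by rw [Real.sin_sub_two_pi]
      have h4 : 0 ≤ Real.sin (z - 2 * π) :=
        Real.sin_nonneg_of_nonneg_of_le_pi (by linarith) (by linarith)
      rw [e, abs_of_nonneg h4]
      have h5 : Real.sin (z - 2 * π) ≤ Real.sin 0.7854 :=
        Real.sin_le_sin_of_le_of_le_pi_div_two (by linarith) (by linarith) (by linarith)
      refine h5.trans ((sin_le5 (by norm_num)).trans ?_)
      norm_num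
    · have := exp_neg_lower (x := 0.045*7.0686^2) (v := 0.5695) (by norm_num) (by norm_num)
        (by norm_num)
      norm_num at this ⊢
      linarith

/-- Generic: for `|z| ≤ Z`, `Z ≥ π`. -/
theorem abs_sinc_gen {z Z : ℝ} (hZ : π ≤ Z) (hz : |z| ≤ Z) :
    |sinc z| ≤ exp (-(log Z / Z ^ 2 * z ^ 2)) := by
  have hZ0 : 0 < Z := by linarith [Real.pi_pos]
  have h := sinc_tail (a := z / (2 * Z)) (t := Z) ?_ hZ
  · have e1 : z / (2 * Z) * (2 * Z) = z := by field_simp
    rw [e1] at h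
    convert h using 3
    field_simp
    norm_num
  · rw [abs_div, abs_of_pos (by positivity : 0 < 2 * Z), div_le_iff₀ (by positivity)]
    linarith

/-- Maximum of `|sinc|` beyond `π`. -/
theorem abs_sinc_max {z : ℝ} (hz : π ≤ |z|) : |sinc z| ≤ 0.218 := by
  wlog h : 0 ≤ z generalizing z
  · have := this (z := -z) (by rwa [abs_neg]) (by linarith)
    rwa [sinc_neg] at this
  rw [abs_of_nonneg h] at hz
  have hpi := Real.pi_gt_d6
  have hpi2 := Real.pi_lt_d6
  have hpos : 0 < z := by linarith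
  rcases le_total 4.5872 z with h1 | h1
  · refine (abs_sinc_le_inv hpos.ne').trans ?_
    rw [abs_of_pos hpos, div_le_iff₀ hpos]
    linarith
  · rw [sinc_of_ne_zero hpos.ne', abs_div, abs_of_pos hpos, div_le_iff₀ hpos]
    have e : Real.sin z = - Real.cos (3 * π / 2 - z) := by
      have e : 3 * π / 2 - z = -((z - π) - π / 2) := by ring
      rw [e, Real.cos_neg, Real.cos_sub_pi_div_two, Real.sin_sub_pi, neg_neg]
    have h2 : 0 ≤ Real.cos (3 * π / 2 - z) :=
      Real.cos_nonneg_of_neg_pi_div_two_le_of_le (by linarith [Real.pi_pos]) (by linarith)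
    rw [e, abs_neg, abs_of_nonneg h2]
    obtain ⟨u, hu⟩ : ∃ u, u = 3 * π / 2 - z := ⟨_, rfl⟩
    rw [← hu]
    have hz' : z = 3 * π / 2 - u := by linarith
    have hu0 : 0 ≤ u := by linarith
    have hu1 : u ≤ 1.5708 := by linarith
    refine (cos_le4 hu0).trans ?_
    rcases le_total u 1 with h3 | h3
    · have h4 : u ^ 4 ≤ u ^ 2 := by nlinarith [mul_nonneg hu0 hu0, mul_nonneg hu0 (by linarith : 0 ≤ 1 - u)]
      nlinarith [sq_nonneg (u - 0.2378)]
    · have h4 : u ^ 2 ≤ 1.5708 ^ 2 := by gcongr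
      nlinarith [sq_nonneg (u - 1), mul_nonneg (sq_nonneg u) (by linarith : 0 ≤ 1.5708 ^ 2 - u ^ 2)]

end Pool.Agent.Helper89.FA
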